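import Pool.Agent.RHO.DET
import Pool.Agent.RHO.ETA
import Pool.Agent.RHO.CNT
import Pool.Agent.RHO.GR1
import Pool.Agent.RHO.GR2
import Pool.Agent.RHO.PTH
import Pool.Agent.RHO.PP1
import Pool.Agent.RHO.PP2
import Pool.Agent.RHO.TOG
import Pool.Agent.RHO.HO1
import Pool.Agent.RHO.HO2
import Pool.Agent.RHO.AVG
import Pool.Agent.RHO.GRM
import Pool.Agent.RHO.NET
import Pool.Agent.RHO.NRM
import Pool.Agent.RHO.BAD
import Pool.Agent.RHO.CO1
import Pool.Agent.RHO.COR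
import Pool.Agent.RHO.HB
import Pool.Agent.RHO.MAI
import Pool.Agent.RHO.NU1
import Pool.Agent.RHO.NU2
import Pool.Agent.RHO.CFG
import Pool.Agent.RHO.EXP
import Pool.Agent.RHO.LIM
import Pool.Agent.RHO.DET2
import Pool.Agent.RHO.ETA2
import Pool.Agent.RHO.CNT2
import Pool.Agent.RHO.NRM2
import Pool.Agent.Helper36_RHO4.BAD2
import Pool.Agent.RHO.CO12
import Pool.Agent.RHO.COR2
import Pool.Agent.RHO.MAI2
import Pool.Agent.Helper36_RHO4.GRM2
import Pool.Agent.Helper36_RHO4.CFG2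
import Pool.Agent.RHO.HK4
import Pool.Agent.Helper36_RHO4.EX3
import Pool.Agent.Helper36_RHO4.RT3

/-!
# A rate for the convergence of `ρ_n` to `2`
-/

set_option autoImplicit false

namespace Pool.Agent.Results.MP_ca8ef3_an.RateExp

open Filter Topology Pool.Agent.Helper18_Proj Pool.Agent.RHO

/-! ### The first construction (explicit constants) -/

theorem tog' : TOGStmt := tog (gr2 gr1) (pp1 pth) (pp2 pth (pp1 pth))

theorem cfg' : CFGStmt := cfg tog' net (Grm33.grm ho1 ho2 avg) nu1 nu2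

theorem cor' : CORStmt := cor nrm det etaRow (co1 Bad33.bad (cnt etaRow))

theorem q' : QStmt := q_of cfg' (mai nrm cor' hb)

/-! ### The second construction (better rate) -/

theorem cfg2' : CFG2Stmt := H36d.cfg2 net (H36d.grm2 ho1 ho2)

theorem cor2' : COR2Stmt := cor2 nrm2 det2 eta2 (co12 H36d.bad2 (cnt2 eta2))

theorem q2' : Q2Stmt := by
  intro a B N ha hk h1 h2
  obtain ⟨D, g, M, X, Ω, J, i1, i2, i3, i4, κ, ⟨C⟩⟩ := cfg2' a B N ha hk h1 h2
  have h := mai2 nrm2 cor2' hb (2 ^ a) N D g M X Ω J κ C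
  simpa using h

/-- There are constants `c > 0` and `C` with `ρ_n ≥ 2 - C exp (- c √(log n))` for all `n ≥ 1`.
With explicit constants: `ρ_n ≥ 2 - 1/m` if `m ≤ 2^k` and `n ≥ 2^(2^50 m k^2)`. In particular `ρ_n`
tends to `2`. -/
theorem result :
    (∃ c C : ℝ, 0 < c ∧ ∀ n : ℕ, 1 ≤ n →
      ENNReal.ofReal (2 - C * Real.exp (-(c * √(Real.log n)))) ≤ rho n) ∧
    (∀ m k n : ℕ, 1 ≤ m → 1 ≤ k → m ≤ 2 ^ k → 2 ^ (2 ^ 50 * m * k ^ 2) ≤ n →
      ENNReal.ofReal (2 - 1 / m) ≤ rho n) ∧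
    Tendsto rho atTop (𝓝 2) := by
  refine ⟨?_, RHO.exp q', limit_of (RHO.exp q')⟩
  obtain ⟨C, hC⟩ := H36d.ex3 q2' 8300 HK4.hs1'
  exact H36d.rt3 C hC

end Pool.Agent.Results.MP_ca8ef3_an.RateExp
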