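import Pool.Agent.Helper18_Proj.Defs
import Pool.Agent.Helper18_Proj.Gen

/-!
# Explicit lower bounds for the numbers `ρ_n`
-/

set_option autoImplicit false

namespace Pool.Agent.Results.MP_ca8ef3_an.UniformBound

open Module Pool.Agent.Helper18_Proj

/-- If every projection onto a hyperplane of the `n`-dimensional space `X` has norm at least `c`
then `ρ_n ≥ c`. -/
lemma le_rho {n : ℕ} {c : ℝ} (X : Type) [i1 : NormedAddCommGroup X] [i2 : NormedSpace ℝ X]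
    [i3 : FiniteDimensional ℝ X] (hn : finrank ℝ X = n)
    (h : ∀ (Y : Submodule ℝ X), finrank ℝ Y + 1 = finrank ℝ X → ∀ P : X →L[ℝ] X,
      IsProj Y P → c ≤ ‖P‖) : ENNReal.ofReal c ≤ rho n := by
  have h1 : ENNReal.ofReal c ≤ minHyperplane X := by
    unfold minHyperplane relProjConst
    refine le_iInf fun Y => le_iInf fun hY => le_iInf fun P => le_iInf fun hP => ?_
    exact ENNReal.ofReal_le_ofReal (h Y hY P hP)
  refine h1.trans ?_
  unfold rho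
  exact le_iSup_of_le X (le_iSup_of_le i1 (le_iSup_of_le i2 (le_iSup_of_le i3
    (le_iSup_of_le hn le_rfl))))

lemma four (b e : ℕ) (hb : 3 ≤ b) :
    ENNReal.ofReal (1 + ((b:ℝ) - 2) / (3 * ((b:ℝ) - 1))) ≤ rho (3 * b + 2 * e) := by
  refine le_rho (X4 e b) (finrank_X4 e b) fun Y hY P hP => ?_
  obtain ⟨v, f, hfv, hPx⟩ := rank_one Y hY P hP.1 hP.2
  have hY0 : Y ≠ ⊥ := by
    rintro rfl
    rw [finrank_X4, finrank_bot] at hY
    omega
  have h1 := one_le_norm Y hY0 P hP.2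
  exact four_bound hb P v f hPx hfv (by linarith)

lemma three (K : ℕ) (hK : 3 ≤ K) :
    ENNReal.ofReal (1 + ((K:ℝ) - 2) / (5 * ((K:ℝ) - 1))) ≤ rho (2 * K) := by
  refine le_rho (X3 K) (finrank_X3 K) fun Y hY P hP => ?_
  obtain ⟨v, f, hfv, hPx⟩ := rank_one Y hY P hP.1 hP.2
  have hY0 : Y ≠ ⊥ := by
    rintro rfl
    rw [finrank_X3, finrank_bot] at hY
    omega
  have h1 := one_le_norm Y hY0 P hP.2
  exact three_bound hK P v f hPx hfv (by linarith)

lemma all (n : ℕ) (hn : 8 ≤ n) : ENNReal.ofReal (17 / 15) ≤ rho n := by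
  by_cases h8 : n = 8
  · subst h8
    refine le_trans (ENNReal.ofReal_le_ofReal ?_) (three 4 (by norm_num))
    norm_num
  by_cases h10 : n = 10
  · subst h10
    refine le_trans (ENNReal.ofReal_le_ofReal ?_) (three 5 (by norm_num))
    norm_num
  obtain ⟨b, e, hb, rfl⟩ : ∃ b e : ℕ, 3 ≤ b ∧ n = 3 * b + 2 * e := by
    refine ⟨(n - 2 * ((2 * n) % 3)) / 3, (2 * n) % 3, ?_, ?_⟩ <;> omega
  refine le_trans (ENNReal.ofReal_le_ofReal ?_) (four b e hb)
  have hb' : (3:ℝ) ≤ b := by exact_mod_cast hb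
  have : (1:ℝ) / 6 ≤ ((b:ℝ) - 2) / (3 * ((b:ℝ) - 1)) := by
    rw [div_le_div_iff₀ (by norm_num) (by linarith)]
    linarith
  linarith

lemma lim : 4 / 3 ≤ Filter.liminf rho Filter.atTop := by
  have key : ∀ c : ℝ, 0 < c → c < 4 / 3 → ENNReal.ofReal c ≤ Filter.liminf rho Filter.atTop := by
    intro c _ hc
    apply Filter.le_liminf_of_le
    · isBoundedDefault
    obtain ⟨M, hM⟩ := exists_nat_gt (1 / (4 / 3 - c))
    filter_upwards [Filter.eventually_ge_atTop (3 * M + 20)] with n hn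
    obtain ⟨b, e, hb, hbM, rfl⟩ : ∃ b e : ℕ, 3 ≤ b ∧ M ≤ b ∧ n = 3 * b + 2 * e := by
      refine ⟨(n - 2 * ((2 * n) % 3)) / 3, (2 * n) % 3, ?_, ?_, ?_⟩ <;> omega
    refine le_trans (ENNReal.ofReal_le_ofReal ?_) (four b e hb)
    have hb' : (3:ℝ) ≤ b := by exact_mod_cast hb
    have hM' : (M:ℝ) ≤ b := by exact_mod_cast hbM
    have hc' : 0 < 4 / 3 - c := by linarith
    have h1 : 1 < (b:ℝ) * (4 / 3 - c) := by
      rw [div_lt_iff₀ hc'] at hM
      exact lt_of_lt_of_le hM (mul_le_mul_of_nonneg_right hM' hc'.le)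
    have : c - 1 ≤ ((b:ℝ) - 2) / (3 * ((b:ℝ) - 1)) := by
      rw [le_div_iff₀ (by linarith)]
      nlinarith
    linarith
  refine le_of_forall_lt fun a ha => ?_
  have ha' : a ≠ ⊤ := ne_top_of_lt ha
  have h43 : (4 / 3 : ENNReal) = ENNReal.ofReal (4 / 3) := by
    rw [ENNReal.ofReal_div_of_pos (by norm_num)]
    norm_num
  rw [h43, ENNReal.lt_ofReal_iff_toReal_lt ha'] at ha
  obtain ⟨c, hc1, hc2⟩ := exists_between ha
  have hc0 : 0 < c := lt_of_le_of_lt ENNReal.toReal_nonneg hc1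
  refine lt_of_lt_of_le ?_ (key c hc0 hc2)
  rwa [ENNReal.lt_ofReal_iff_toReal_lt ha']

/-- Explicit lower bounds for `ρ_n`. -/
theorem result :
    (∀ b e : ℕ, 3 ≤ b →
      ENNReal.ofReal (1 + ((b:ℝ) - 2) / (3 * ((b:ℝ) - 1))) ≤ rho (3 * b + 2 * e)) ∧
    (∀ K : ℕ, 3 ≤ K →
      ENNReal.ofReal (1 + ((K:ℝ) - 2) / (5 * ((K:ℝ) - 1))) ≤ rho (2 * K)) ∧
    (∀ n : ℕ, 8 ≤ n → ENNReal.ofReal (17 / 15) ≤ rho n) ∧
    4 / 3 ≤ Filter.liminf rho Filter.atTop :=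
  ⟨four, three, all, lim⟩

end Pool.Agent.Results.MP_ca8ef3_an.UniformBound
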