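import Pool.Agent.Helper33_PJC.HUL
import Pool.Agent.Helper56_RHP.KER
import Pool.Agent.Helper56_RHP.STA
import Pool.Agent.Helper86_PJC.Rew
import Pool.Agent.Helper30_PJC.SWP
import Pool.Agent.Helper3_PJC.SID
import Pool.Agent.Helper15_PJC.DUA
import Pool.Agent.Helper80_PJC.JOH2
import Pool.Agent.Helper92_PJC.TRN
import Pool.Agent.Helper84_PJC.TIG
import Pool.Agent.Helper48_PJC.IND
import Pool.Agent.Helper25_PJC.TRU
import Pool.Agent.Helper1_PJC.AVG
import Pool.Agent.Helper79_PJC.PAI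
import Pool.Agent.Helper2_PJC.PRJ
import Pool.Agent.Helper81_PJC.NUC
import Pool.Agent.Helper67_PJC.SEC
import Pool.Agent.Helper59_PJC.HCV
import Pool.Agent.Helper70_PJC.HUB
import Pool.Agent.Helper70_PJC.SML
import Pool.Agent.Helper5_PJC.FIN
import Pool.Agent.Helper5_PJC.MAI

/-!
# The upper bound `ρ_n ≤ 2 - (2 + c)/n`

`rho n` is the number `ρ_n` of the problem (`Pool.Agent.Helper18_Proj.Defs`), with values in
`[0, ∞]`.
-/

set_option autoImplicit false

namespace Pool.Agent.Results.MP_ca8ef3_an.UpperBound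

open Pool.Agent.Helper18_Proj Pool.Agent.PJC

theorem sec : SecStmt := H67.sec

theorem tig : TigStmt := H84.tig

theorem fin' : FinStmt :=
  H5.fin tig (H1.avg tig H48.ind H25.tru) H79.pai H2.prj H81.nuc sec (H59.hcv sec)
    (H70.hub sec) (H70.sml sec)

theorem sid' : SidStmt := H3.sid (H56.ker H33.hul) H86.rew H56.sta H30.swp

theorem trn' : TrnStmt := H92.trn H15.dua H80.joh2

/-- There is an absolute constant `c > 0`, namely `c = 10^(-120)`, such that
`ρ_n ≤ 2 - (2 + c)/n` for every `n ≥ 4`. -/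
theorem result :
    ∀ n : ℕ, 4 ≤ n → rho n ≤ ENNReal.ofReal (2 - (2 + 1 / 10 ^ 120) / n) :=
  H5.mai trn' sid' fin'

end Pool.Agent.Results.MP_ca8ef3_an.UpperBound
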